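import Pool.Agent.Leo3.Stmts

/-!
# Squad leo3: the local part (module LOC)
-/

set_option autoImplicit false

open NumberField IsDedekindDomain WithZero Module Polynomial
open Pool.Agent.Helper85_Leo

namespace Pool.Agent.Leo3.H11

open Pool.Agent.Leo3

section

variable {K L : Type} [Field K] [Field L] [Algebra K L] [FiniteDimensional K L] [IsGalois K L]

/-- An automorphism that fixes the image of `K` acts on the image of `L` through the Galois
group. -/
theorem exists_aut (φ : L →+* Om) (ρ : Om ≃ₐ[ℚ_[3]] Om)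
    (hρ : FixF (φ.comp (algebraMap K L)) ρ) :
    ∃ g : L ≃ₐ[K] L, ∀ x, ρ (φ x) = φ (g x) := by
  letI i1 : Algebra L Om := φ.toAlgebra
  letI i2 : Algebra K Om := (φ.comp (algebraMap K L)).toAlgebra
  haveI i3 : IsScalarTower K L Om := IsScalarTower.of_algebraMap_eq' rfl
  let r : Om ≃ₐ[K] Om := AlgEquiv.ofRingEquiv (f := ρ.toRingEquiv) (fun x => hρ x)
  haveI : Normal K L := inferInstance
  refine ⟨r.restrictNormal L, fun x => ?_⟩
  exact (AlgEquiv.restrictNormal_commutes r L x).symm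

/-- The third power of such an automorphism fixes the image of `L`. -/
theorem cube_fix (h3 : finrank K L = 3) (φ : L →+* Om) (ρ : Om ≃ₐ[ℚ_[3]] Om)
    (hρ : FixF (φ.comp (algebraMap K L)) ρ) (t : Om) (ht : InLoc φ t) : ρ (ρ (ρ t)) = t := by
  obtain ⟨g, hg⟩ := exists_aut φ ρ hρ
  have h := ht ((ρ.trans ρ).trans ρ) (fun x => by
    have e : g ^ 3 = 1 := by
      have hc : Nat.card (L ≃ₐ[K] L) = 3 := by rw [IsGalois.card_aut_eq_finrank, h3]
      rw [← hc]
      exact pow_card_eq_one'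
    have e2 : g (g (g x)) = x := by
      have := congrArg (fun f : L ≃ₐ[K] L => f x) e
      simpa [pow_succ] using this
    rw [AlgEquiv.trans_apply, AlgEquiv.trans_apply, hg, hg, hg, e2])
  exact h

/-- Such an automorphism preserves the local field of `L`. -/
theorem inLoc_map (φ : L →+* Om) (ρ : Om ≃ₐ[ℚ_[3]] Om)
    (hρ : FixF (φ.comp (algebraMap K L)) ρ) (t : Om) (ht : InLoc φ t) : InLoc φ (ρ t) := by
  obtain ⟨g, hg⟩ := exists_aut φ ρ hρ
  intro σ hσ
  have h := ht ((ρ.trans σ).trans ρ.symm) (fun x => by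
    rw [AlgEquiv.trans_apply, AlgEquiv.trans_apply, hg, hσ, ← hg, AlgEquiv.symm_apply_apply])
  rw [AlgEquiv.trans_apply, AlgEquiv.trans_apply, AlgEquiv.symm_apply_eq] at h
  exact h

theorem noMu_up (h3 : finrank K L = 3) (hK : NoMu K) : NoMu L := by
  intro φ t ht ht3
  by_contra hne
  apply hne
  refine hK (φ.comp (algebraMap K L)) t ?_ ht3
  intro ρ hρ
  have hs : 1 + t + t ^ 2 = 0 := by
    have : (t - 1) * (1 + t + t ^ 2) = 0 := by
      linear_combination ht3
    exact (mul_eq_zero.1 this).resolve_left (sub_ne_zero.2 hne)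
  have hu3 : (ρ t) ^ 3 = 1 := by rw [← map_pow, ht3, map_one]
  have hu1 : ρ t ≠ 1 := by
    intro h
    exact hne (ρ.injective (by rw [h, map_one]))
  have hu : (ρ t - t) * (ρ t - t ^ 2) = 0 := by
    have : (ρ t - 1) * ((ρ t - t) * (ρ t - t ^ 2)) = 0 := by
      linear_combination hu3 - ht3 - ((ρ t) ^ 2 - (ρ t) * t) * hs
    exact (mul_eq_zero.1 this).resolve_left (sub_ne_zero.2 hu1)
  rcases mul_eq_zero.1 hu with h | h
  · exact sub_eq_zero.1 h
  · have h2 : ρ t = t ^ 2 := sub_eq_zero.1 h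
    have h4 : ρ (ρ t) = t := by
      rw [h2, map_pow, h2]
      linear_combination t * ht3
    have h5 := cube_fix h3 φ ρ hρ t ht
    rw [h4] at h5
    exact h5

theorem loc : LocStmt := by
  intro K L _ _ _ _ _ h3 hK
  have hL : NoMu L := noMu_up h3 hK
  refine ⟨hL, ?_⟩
  intro φ t ht hcube ρ hρ
  by_cases h0 : t = 0
  · rw [h0, map_zero]
  have h1 : InLoc φ (ρ t / t) := by
    intro σ hσ
    rw [map_div₀, inLoc_map φ ρ hρ t ht σ hσ, ht σ hσ]
  have h2 : (ρ t / t) ^ 3 = 1 := by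
    rw [div_pow, ← map_pow, hcube ρ hρ, div_self (pow_ne_zero 3 h0)]
  have h4 := hL φ _ h1 h2
  rwa [div_eq_one_iff_eq h0] at h4

end

end Pool.Agent.Leo3.H11
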